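import Pool.Agent.Y163.TateC

/-!
# The orders of the poles of the zeta functions of powers and the ranks of their cycles
-/

set_option linter.unusedVariables false
set_option linter.unusedSectionVars false

open CategoryTheory AlgebraicGeometry CategoryTheory.Limits

universe u v

namespace Pool.Agent.Q63.PB

open Pool.Agent.H914 Pool.Agent.H447 Pool.Agent.W534 VarClass Obj WeilCohomology Module
  Pool.Agent.Y163

variable {k : Type u} [Field k] {𝒱 : VarClass k} {ops : CycleOps 𝒱}
  {W : WeilCohomology.{u, v} ops} {p : ℕ} (Φ : FrobSystem W p)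

/-- The spaces of generalised Tate classes of different degrees are independent. -/
theorem sum_genU_le (Z : 𝒱.Obj) (N : ℕ) :
    ∑ j ∈ Finset.range N, finrank W.K (genU Φ Z j) ≤ finrank W.K (W.H Z) := by
  classical
  have hind : iSupIndep fun j : Fin N => W.gr Z (2 * (j : ℕ)) :=
    (W.isInternal Z).submodule_iSupIndep.comp (f := fun j : Fin N => 2 * (j : ℕ))
      (fun a b h => Fin.ext (by simpa using h))
  have hind2 : iSupIndep fun j : Fin N => genU Φ Z (j : ℕ) :=
    hind.mono fun j => inf_le_right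
  have h1 := hind2.dfinsupp_lsum_injective
  have h2 := LinearMap.finrank_le_finrank_of_injective h1
  have h3 : finrank W.K (Π₀ j : Fin N, genU Φ Z (j : ℕ)) =
      ∑ j : Fin N, finrank W.K (genU Φ Z (j : ℕ)) :=
    Module.finrank_directSum W.K fun j : Fin N => genU Φ Z (j : ℕ)
  rw [h3] at h2
  rw [Finset.sum_range]
  exact h2

/-- The formula of Tate up to a polynomial factor. -/
theorem main [IsAlgClosed W.K] (hp : 1 < p) (σ : W.K →+* ℂ) (hRH : ∀ Z : 𝒱.Obj, RiemannHyp Φ σ Z)
    (X : 𝒱.Obj) : ∃ z : ℕ → ℕ → ℕ,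
      (∀ n, ∀ j ≤ (sq X n).dim, PoleOrderIs Φ σ (sq X n) j (z n j)) ∧
      (∀ n, ∀ j ≤ (sq X n).dim, numRank ops (sq X n) j ≤ z n j) ∧
      ∀ n, (∑ j ∈ Finset.range ((sq X n).dim + 1), z n j ≤
          finrank W.K (W.H X) ^ (2 * (n + 1))) ∧
        finrank W.K (W.H X) ^ (2 * (n + 1)) ≤
          (n + 2) ^ (finrank W.K (W.H X) ^ 2) * numRank ops (sq X n) ((n + 1) * X.dim) := by
  have hX : par (W.isInternal X) ∈ KOp W X X 0 := par_mem_of_RH Φ hp σ (hRH X)
  refine ⟨fun n j => finrank W.K (genU Φ (sq X n) j), fun n j hj => poleOrderIs hp (hRH _) hj,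
    fun n j hj => ?_, fun n => ⟨?_, ?_⟩⟩
  · rw [numRank_eq (W := W) hj]
    exact (kRank_le _ _).trans (Submodule.finrank_mono (span_le_genU Φ _ _))
  · refine (sum_genU_le Φ _ _).trans (le_of_eq ?_)
    have e := kappa W (pw X n) (pw X n)
    have h1 : finrank W.K (W.H (sq X n)) = finrank W.K (W.H (pw X n)) * finrank W.K (W.H (pw X n)) := by
      change finrank W.K (W.H ((pw X n).prod (pw X n))) = _
      rw [← e.finrank_eq, finrank_tensorProduct]
    rw [h1, finrank_pw, ← pow_add]
    congr 1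
    ring
  · have h1 := mrank_growth hX n
    rw [numRank_sq (W := W), mul_comm ((n + 2) ^ _)]
    rw [← pow_mul] at h1
    exact h1

end Pool.Agent.Q63.PB
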